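import Mathlib
import Pool.Agent.Work.MP_3035da_co.BBlock

/-!
# Linear clustering of 3-colourings of planar graphs, finite and infinite

Every graph (finite or infinite) without `K₅` and `K₃,₃` minor in which all degrees are at most
`Δ ≥ 1` has a 3-colouring all monochromatic components of which have at most `9000 Δ` vertices;
moreover the colour of one vertex can be prescribed, and this vertex can be made a monochromatic
component by itself.
-/

set_option autoImplicit false

namespace Pool.Agent.Results.MP_3035da_co.RootedLinearClustering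

open Classical

/-- `H` is a minor of `G`: there are disjoint connected branch sets, one for each vertex of `H`,
with an edge of `G` between the branch sets of adjacent vertices of `H`. -/
def IsMinor {W V : Type} (H : SimpleGraph W) (G : SimpleGraph V) : Prop :=
  ∃ B : W → Set V, (∀ i, (G.induce (B i)).Connected) ∧
    (∀ i j, i ≠ j → Disjoint (B i) (B j)) ∧
    ∀ i j, H.Adj i j → ∃ u ∈ B i, ∃ v ∈ B j, G.Adj u v

/-- Wagner's characterisation of planar graphs: no `K₅` minor and no `K₃,₃` minor. -/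
def Planar {V : Type} (G : SimpleGraph V) : Prop :=
  ¬ IsMinor (⊤ : SimpleGraph (Fin 5)) G ∧ ¬ IsMinor (completeBipartiteGraph (Fin 3) (Fin 3)) G

theorem IsMinor.of_induce {W V : Type} {H : SimpleGraph W} {G : SimpleGraph V} {S : Set V}
    (h : IsMinor H (G.induce S)) : IsMinor H G := by
  obtain ⟨B, h1, h2, h3⟩ := h
  refine ⟨fun i => Subtype.val '' B i, fun i => ?_, fun i j hij => ?_, fun i j hij => ?_⟩
  · have hc := h1 i
    let φ : (G.induce S).induce (B i) →g G.induce (Subtype.val '' B i) :=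
      ⟨fun x => ⟨x.1.1, x.1, x.2, rfl⟩, fun {a b} hab => hab⟩
    refine hc.map φ ?_
    rintro ⟨_, y, hy, rfl⟩
    exact ⟨⟨y, hy⟩, rfl⟩
  · exact (Set.disjoint_image_iff Subtype.val_injective).2 (h2 i j hij)
  · obtain ⟨u, hu, v, hv, huv⟩ := h3 i j hij
    exact ⟨u, ⟨u, hu, rfl⟩, v, ⟨v, hv, rfl⟩, huv⟩

theorem Planar.induce {V : Type} {G : SimpleGraph V} (h : Planar G) (S : Set V) :
    Planar (G.induce S) :=
  ⟨fun h' => h.1 h'.of_induce, fun h' => h.2 h'.of_induce⟩

theorem rtg_mono {α : Type} {p q : α → α → Prop} (h : ∀ a b, p a b → q a b) {x y : α}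
    (hxy : Relation.ReflTransGen p x y) : Relation.ReflTransGen q x y := by
  induction hxy with
  | refl => exact Relation.ReflTransGen.refl
  | tail _ hab ih => exact ih.tail (h _ _ hab)

theorem rtg_lift {α β : Type} {p : α → α → Prop} {q : β → β → Prop} (φ : α → β)
    (h : ∀ a b, p a b → q (φ a) (φ b)) {x y : α}
    (hxy : Relation.ReflTransGen p x y) : Relation.ReflTransGen q (φ x) (φ y) := by
  induction hxy with
  | refl => exact Relation.ReflTransGen.refl
  | tail _ hab ih => exact ih.tail (h _ _ hab)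

/-- `x` and `y` are adjacent and of the same colour -/
def Mono {V : Type} (G : SimpleGraph V) (f : V → Fin 3) (x y : V) : Prop := G.Adj x y ∧ f x = f y

theorem finite_case {V : Type} [Fintype V] (G : SimpleGraph V) (hG : Planar G) (Δ : ℕ)
    (hΔ : 1 ≤ Δ) (hdeg : ∀ v, (G.neighborSet v).encard ≤ Δ) (r : V) (c : Fin 3) :
    ∃ f : V → Fin 3, f r = c ∧ (∀ u, G.Adj r u → f u ≠ f r) ∧
      ∀ v, {u | Relation.ReflTransGen (Mono G f) v u}.encard ≤ (9000 * Δ : ℕ) := by
  have hK : Pool.Agent.Work.MP_3035da_co.K.KFree G := by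
    refine Pool.Agent.Work.MP_3035da_co.K.kfree_of_frozen ?_ ?_
    · rintro ⟨B, h1, h2, h3⟩
      exact hG.1 ⟨B, h1, h2, fun i j hij => h3 i j hij.ne⟩
    · rintro ⟨B, h1, h2, h3⟩
      refine hG.2 ⟨B, h1, h2, ?_⟩
      rintro (i | i) (j | j) hij
      · simp [completeBipartiteGraph] at hij
      · exact h3 i j
      · obtain ⟨u, hu, w, hw, huw⟩ := h3 j i
        exact ⟨w, hw, u, hu, huw.symm⟩
      · simp [completeBipartiteGraph] at hij
  have hD : CC3.DegLe G Δ := by
    intro v
    have h := hdeg v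
    have e : G.neighborSet v = ↑(Finset.univ.filter (fun u => G.Adj v u)) := by
      ext u
      simp
    rw [e, Set.encard_coe_eq_coe_finsetCard] at h
    exact_mod_cast h
  obtain ⟨f, hf1, hf2, hf3⟩ := CC3.rc_all hK hD Finset.univ r (Finset.mem_univ r) c
  refine ⟨f, hf1, fun u hu => hf2 u (Finset.mem_univ u) hu, fun v => ?_⟩
  have h1 := hf3 v (Finset.mem_univ v)
  have e : {u | Relation.ReflTransGen (Mono G f) v u} =
      ↑(Finset.univ.filter
        (fun u => Relation.ReflTransGen (CC3.MR G Finset.univ f) v u)) := by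
    ext u
    simp only [Set.mem_ofPred_eq, Finset.coe_filter, Finset.mem_univ, true_and]
    constructor
    · exact rtg_mono
        (fun x y hxy => ⟨hxy.1, Finset.mem_univ _, Finset.mem_univ _, hxy.2⟩)
    · exact rtg_mono (fun x y hxy => ⟨hxy.1, hxy.2.2.2⟩)
  rw [e, Set.encard_coe_eq_coe_finsetCard]
  have h4 : 1000 * (3 * Δ + 6) ≤ 9000 * Δ := by omega
  exact_mod_cast le_trans h1 h4

/-- the colourings of `V` that are good on the finite set `S` -/
def Good {V : Type} (G : SimpleGraph V) (m : ℕ) (r : V) (c : Fin 3) (S : Finset V) :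
    Set (V → Fin 3) :=
  {f | (r ∈ S → f r = c) ∧ (∀ u ∈ S, r ∈ S → G.Adj r u → f u ≠ f r) ∧
    ∀ v ∈ S, {u | Relation.ReflTransGen
      (fun x y => G.Adj x y ∧ x ∈ S ∧ y ∈ S ∧ f x = f y) v u}.encard ≤ m}

theorem good_congr {V : Type} {G : SimpleGraph V} {m : ℕ} {r : V} {c : Fin 3} {S : Finset V}
    {f g : V → Fin 3} (h : ∀ v ∈ S, f v = g v) (hf : f ∈ Good G m r c S) :
    g ∈ Good G m r c S := by
  obtain ⟨h1, h2, h3⟩ := hf
  refine ⟨fun hr => by rw [← h r hr]; exact h1 hr, fun u hu hr hru => ?_, fun v hv => ?_⟩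
  · rw [← h u hu, ← h r hr]
    exact h2 u hu hr hru
  · have e : (fun x y => G.Adj x y ∧ x ∈ S ∧ y ∈ S ∧ g x = g y) =
        (fun x y => G.Adj x y ∧ x ∈ S ∧ y ∈ S ∧ f x = f y) := by
      funext x y
      apply propext
      constructor
      · rintro ⟨a, b, c, d⟩
        exact ⟨a, b, c, by rw [h x b, h y c]; exact d⟩
      · rintro ⟨a, b, c, d⟩
        exact ⟨a, b, c, by rw [← h x b, ← h y c]; exact d⟩
    rw [e]
    exact h3 v hv

theorem good_mono {V : Type} {G : SimpleGraph V} {m : ℕ} {r : V} {c : Fin 3} {S T : Finset V}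
    (hST : S ⊆ T) : Good G m r c T ⊆ Good G m r c S := by
  rintro f ⟨h1, h2, h3⟩
  refine ⟨fun hr => h1 (hST hr), fun u hu hr hru => h2 u (hST hu) (hST hr) hru, fun v hv => ?_⟩
  refine le_trans (Set.encard_le_encard ?_) (h3 v (hST hv))
  intro u hu
  exact rtg_mono (fun x y hxy => ⟨hxy.1, hST hxy.2.1, hST hxy.2.2.1, hxy.2.2.2⟩) hu

theorem good_closed {V : Type} (G : SimpleGraph V) (m : ℕ) (r : V) (c : Fin 3) (S : Finset V) :
    IsClosed (Good G m r c S) := by
  let ρ : (V → Fin 3) → (S → Fin 3) := fun f v => f v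
  have hρ : Continuous ρ := continuous_pi (fun v => continuous_apply (v : V))
  have e : Good G m r c S = ρ ⁻¹' (ρ '' Good G m r c S) := by
    apply Set.Subset.antisymm (Set.subset_preimage_image _ _)
    rintro f ⟨g, hg, hgf⟩
    exact good_congr (fun v hv => congrFun hgf ⟨v, hv⟩) hg
  rw [e]
  exact (isClosed_discrete _).preimage hρ

theorem good_nonempty {V : Type} (G : SimpleGraph V) (hG : Planar G) (Δ : ℕ)
    (hΔ : 1 ≤ Δ) (hdeg : ∀ v, (G.neighborSet v).encard ≤ Δ) (r : V) (c : Fin 3) (S : Finset V)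
    (hr : r ∈ S) : (Good G (9000 * Δ) r c S).Nonempty := by
  have hdeg' : ∀ v, ((G.induce (S : Set V)).neighborSet v).encard ≤ Δ := by
    intro v
    refine le_trans ?_ (hdeg v)
    rw [← Subtype.val_injective.encard_image]
    apply Set.encard_le_encard
    rintro _ ⟨u, hu, rfl⟩
    exact hu
  obtain ⟨f, h1, h2, h3⟩ := finite_case (G.induce (S : Set V)) (hG.induce _) Δ hΔ hdeg' ⟨r, hr⟩ c
  let g : V → Fin 3 := fun v => if h : v ∈ S then f ⟨v, h⟩ else 0
  have hg : ∀ v (h : v ∈ S), g v = f ⟨v, h⟩ := fun v h => dif_pos h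
  refine ⟨g, fun _ => by rw [hg r hr]; exact h1, fun u hu _ hru => ?_, fun v hv => ?_⟩
  · rw [hg u hu, hg r hr]
    exact h2 ⟨u, hu⟩ hru
  · refine le_trans ?_ (h3 ⟨v, hv⟩)
    rw [← Subtype.val_injective.encard_image]
    apply Set.encard_le_encard
    intro u hu
    have key : ∀ u, Relation.ReflTransGen
        (fun x y => G.Adj x y ∧ x ∈ S ∧ y ∈ S ∧ g x = g y) v u →
        ∃ h : u ∈ S, Relation.ReflTransGen (Mono (G.induce (S : Set V)) f) ⟨v, hv⟩ ⟨u, h⟩ := by
      intro u hu
      induction hu with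
      | refl => exact ⟨hv, Relation.ReflTransGen.refl⟩
      | tail _ hab ih =>
        obtain ⟨ha, ih⟩ := ih
        obtain ⟨q1, q2, q3, q4⟩ := hab
        refine ⟨q3, ih.tail ⟨q1, ?_⟩⟩
        rw [hg _ q2, hg _ q3] at q4
        exact q4
    obtain ⟨h, hh⟩ := key u hu
    exact ⟨⟨u, h⟩, hh, rfl⟩

/-- a walk of one colour, inside the finite set of its vertices -/
theorem walk_in {V : Type} {G : SimpleGraph V} {f : V → Fin 3} {x y : V}
    (h : Relation.ReflTransGen (Mono G f) x y) :
    ∃ S : Finset V, x ∈ S ∧ Relation.ReflTransGen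
      (fun x y => G.Adj x y ∧ x ∈ S ∧ y ∈ S ∧ f x = f y) x y := by
  induction h with
  | refl => exact ⟨{x}, Finset.mem_singleton_self x, Relation.ReflTransGen.refl⟩
  | @tail b z _ hab ih =>
    obtain ⟨S, hx, hS⟩ := ih
    refine ⟨insert b (insert z S), by simp [hx], ?_⟩
    refine Relation.ReflTransGen.tail (b := b) ?_ ⟨hab.1, by simp, by simp, hab.2⟩
    exact rtg_mono (fun p q hpq =>
      ⟨hpq.1, by simp [hpq.2.1], by simp [hpq.2.2.1], hpq.2.2.2⟩) hS

theorem result (V : Type) (G : SimpleGraph V) (hG : Planar G) (Δ : ℕ) (hΔ : 1 ≤ Δ)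
    (hdeg : ∀ v, (G.neighborSet v).encard ≤ Δ) (r : V) (c : Fin 3) :
    ∃ f : V → Fin 3, f r = c ∧ (∀ u, G.Adj r u → f u ≠ c) ∧
      ∀ (i : Fin 3) (C : (G.induce {v | f v = i}).ConnectedComponent),
        C.supp.encard ≤ (9000 * Δ : ℕ) := by
  have hne : (⋂ S : Finset V, Good G (9000 * Δ) r c S).Nonempty := by
    apply IsCompact.nonempty_iInter_of_directed_nonempty_isCompact_isClosed
    · intro S T
      exact ⟨S ∪ T, good_mono Finset.subset_union_left, good_mono Finset.subset_union_right⟩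
    · intro S
      exact (good_nonempty G hG Δ hΔ hdeg r c (insert r S) (Finset.mem_insert_self r S)).mono
        (good_mono (Finset.subset_insert r S))
    · intro S
      exact (good_closed G _ r c S).isCompact
    · intro S
      exact good_closed G _ r c S
  obtain ⟨f, hf⟩ := hne
  rw [Set.mem_iInter] at hf
  have hfr : f r = c := (hf {r}).1 (Finset.mem_singleton_self r)
  refine ⟨f, hfr, fun u hu => ?_, fun i C => ?_⟩
  · have := (hf {r, u}).2.1 u (by simp) (by simp) hu
    rwa [hfr] at this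
  · by_contra hlt
    push Not at hlt
    obtain ⟨x, hx⟩ := C.nonempty_supp
    have h1 : ((9000 * Δ + 1 : ℕ) : ℕ∞) ≤ C.supp.encard := by
      have := Order.add_one_le_of_lt hlt
      exact_mod_cast this
    obtain ⟨t, ht, htc⟩ := Set.exists_subset_encard_eq h1
    have htf : t.Finite := Set.finite_of_encard_eq_coe htc
    have hreach : ∀ y : {v | f v = i}, y ∈ t → ∃ S : Finset V, x.1 ∈ S ∧
        Relation.ReflTransGen (fun x y => G.Adj x y ∧ x ∈ S ∧ y ∈ S ∧ f x = f y) x.1 y.1 := by
      intro y hy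
      apply walk_in
      have h2 : (G.induce {v | f v = i}).Reachable x y := by
        have hyC := ht hy
        rw [SimpleGraph.ConnectedComponent.mem_supp_iff] at hx hyC
        exact SimpleGraph.ConnectedComponent.exact (hx.trans hyC.symm)
      rw [SimpleGraph.reachable_iff_reflTransGen] at h2
      refine rtg_lift (fun z : {v | f v = i} => (z : V)) ?_ h2
      intro a b hab
      exact ⟨hab, a.2.trans b.2.symm⟩
    choose! S hS1 hS2 using hreach
    let T : Finset V := htf.toFinset.biUnion S ∪ {x.1}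
    have h3 := (hf T).2.2 x.1 (by simp [T])
    have h4 : (Subtype.val '' t).encard ≤ (9000 * Δ : ℕ) := by
      refine le_trans (Set.encard_le_encard ?_) h3
      rintro _ ⟨y, hy, rfl⟩
      refine rtg_mono (fun p q hpq => ?_) (hS2 y hy)
      have hsub : S y ⊆ T := by
        intro z hz
        refine Finset.mem_union_left _ (Finset.mem_biUnion.2 ⟨y, ?_, hz⟩)
        simpa using hy
      exact ⟨hpq.1, hsub hpq.2.1, hsub hpq.2.2.1, hpq.2.2.2⟩
    rw [Subtype.val_injective.encard_image, htc] at h4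
    have h5 : 9000 * Δ + 1 ≤ 9000 * Δ := by exact_mod_cast h4
    omega

end Pool.Agent.Results.MP_3035da_co.RootedLinearClustering
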